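import Pool.Agent.N514.LC.Comb

/-!
# Lcm series for two primes: the numbers `1, F, F ^ 2` are linearly independent over `ℚ`
-/

set_option autoImplicit false

namespace Pool.Agent.N514.LC

/-- the data: two integers `p, q ≥ 2`, an irrational number `θ`, the integral parts `ℓ a` of `a θ`, where
`q ^ ℓ a ≤ p ^ a < q ^ (ℓ a + 1)` -/
structure Dat (p q : ℕ) (θ : ℝ) (ℓ : ℕ → ℕ) : Prop where
  hp : 2 ≤ p
  hq : 2 ≤ q
  irr : Irrational θ
  flo : ∀ a : ℕ, ((ℓ a : ℕ) : ℤ) = ⌊(a : ℝ) * θ⌋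
  le : ∀ a : ℕ, q ^ ℓ a ≤ p ^ a
  lt : ∀ a : ℕ, p ^ a < q ^ (ℓ a + 1)

/-- the terms -/
noncomputable def f (p q : ℕ) (ℓ : ℕ → ℕ) (a : ℕ) : ℝ := 1 / ((p : ℝ) ^ a * (q : ℝ) ^ ℓ a)

section

variable {p q : ℕ} {θ : ℝ} {ℓ : ℕ → ℕ} (h : Dat p q θ ℓ)

include h

theorem p_pos : (0 : ℝ) < p := by
  have := h.hp
  exact_mod_cast (by omega : 0 < p)

theorem q_pos : (0 : ℝ) < q := by
  have := h.hq
  exact_mod_cast (by omega : 0 < q)

theorem q_two : (2 : ℝ) ≤ q := by exact_mod_cast h.hq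

theorem f_pos (a : ℕ) : 0 < f p q ℓ a := by
  unfold f
  have := p_pos h
  have := q_pos h
  positivity

theorem f_le (a : ℕ) : f p q ℓ a ≤ (q : ℝ) * (1 / (p : ℝ) ^ 2) ^ a := by
  have hp := p_pos h
  have hq := q_pos h
  have h1 : (p : ℝ) ^ a ≤ (q : ℝ) ^ (ℓ a + 1) := by exact_mod_cast (h.lt a).le
  unfold f
  rw [one_div_pow, mul_one_div, div_le_div_iff₀ (by positivity) (by positivity), one_mul]
  calc ((p : ℝ) ^ 2) ^ a = (p : ℝ) ^ a * (p : ℝ) ^ a := by ring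
    _ ≤ (p : ℝ) ^ a * (q : ℝ) ^ (ℓ a + 1) := by gcongr
    _ = (q : ℝ) * ((p : ℝ) ^ a * (q : ℝ) ^ ℓ a) := by ring

theorem rho_le : 1 / (p : ℝ) ^ 2 ≤ 1 / 4 := by
  have hp : (2 : ℝ) ≤ p := by exact_mod_cast h.hp
  apply one_div_le_one_div_of_le (by norm_num)
  nlinarith

theorem rho_pos : 0 < 1 / (p : ℝ) ^ 2 := by
  have := p_pos h
  positivity

theorem summable_f : Summable (f p q ℓ) := by
  refine Summable.of_nonneg_of_le (fun a => (f_pos h a).le) (f_le h) ?_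
  apply Summable.mul_left
  apply summable_geometric_of_lt_one (rho_pos h).le
  have := rho_le h
  linarith

/-- bound for the tail -/
theorem tail_le (m : ℕ) : ∑' a : ℕ, f p q ℓ (a + m) ≤ 2 * q * (1 / (p : ℝ) ^ 2) ^ m := by
  have hr := rho_le h
  have hr0 := rho_pos h
  have hq := q_pos h
  have h1 : HasSum (fun a : ℕ => (1 / (p : ℝ) ^ 2) ^ a) (1 - 1 / (p : ℝ) ^ 2)⁻¹ :=
    hasSum_geometric_of_lt_one hr0.le (by linarith)
  have h2 := h1.mul_left ((q : ℝ) * (1 / (p : ℝ) ^ 2) ^ m)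
  have h3 : ∑' a : ℕ, f p q ℓ (a + m) ≤ (q : ℝ) * (1 / (p : ℝ) ^ 2) ^ m * (1 - 1 / (p : ℝ) ^ 2)⁻¹ := by
    rw [← h2.tsum_eq]
    refine Summable.tsum_le_tsum (fun a => ?_) ((summable_nat_add_iff m).2 (summable_f h)) h2.summable
    refine (f_le h (a + m)).trans (le_of_eq ?_)
    rw [pow_add]
    ring
  refine h3.trans ?_
  have h4 : (1 - 1 / (p : ℝ) ^ 2)⁻¹ ≤ 2 := by
    rw [inv_le_comm₀ (by linarith) (by norm_num)]
    linarith
  have h5 : 0 ≤ (q : ℝ) * (1 / (p : ℝ) ^ 2) ^ m := by positivity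
  nlinarith

/-- a part of the sum which starts late -/
theorem part_le (m : ℕ) (g : ℕ → ℝ) (h0 : ∀ a, 0 ≤ g a) (h1 : ∀ a, g a ≤ f p q ℓ a)
    (h2 : ∀ a < m, g a = 0) : 0 ≤ ∑' a, g a ∧ ∑' a, g a ≤ 2 * q * (1 / (p : ℝ) ^ 2) ^ m := by
  have hs : Summable g := Summable.of_nonneg_of_le h0 h1 (summable_f h)
  refine ⟨tsum_nonneg h0, ?_⟩
  rw [← hs.sum_add_tsum_nat_add m, Finset.sum_eq_zero (fun a ha => h2 a (Finset.mem_range.1 ha)), zero_add]
  refine le_trans ?_ (tail_le h m)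
  exact Summable.tsum_le_tsum (fun a => h1 (a + m)) ((summable_nat_add_iff m).2 hs)
    ((summable_nat_add_iff m).2 (summable_f h))

theorem mono {a s : ℕ} (has : a ≤ s) : ℓ a ≤ ℓ s := by
  have h1 : q ^ ℓ a < q ^ (ℓ s + 1) :=
    lt_of_le_of_lt ((h.le a).trans (Nat.pow_le_pow_right (by have := h.hp; omega) has)) (h.lt s)
  have := (Nat.pow_lt_pow_iff_right (by have := h.hq; omega : 1 < q)).1 h1
  omega

theorem ell_zero : ℓ 0 = 0 := by
  have h1 := h.le 0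
  rw [pow_zero] at h1
  by_contra h2
  have h3 : q ^ 1 ≤ q ^ ℓ 0 := Nat.pow_le_pow_right (by have := h.hq; omega) (by omega)
  rw [pow_one] at h3
  have := h.hq
  omega

theorem f_zero : f p q ℓ 0 = 1 := by
  unfold f
  rw [ell_zero h]
  simp

theorem ell_add_lt {a s : ℕ} (hc : ph θ a + ph θ s < 1) : ℓ (a + s) = ℓ a + ℓ s := by
  have h1 := (ph_add_lt hc).2
  rw [← h.flo, ← h.flo, ← h.flo] at h1
  exact_mod_cast h1

theorem ell_add_ge {a s : ℕ} (hc : 1 ≤ ph θ a + ph θ s) : ℓ (a + s) = ℓ a + ℓ s + 1 := by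
  have h1 := (ph_add_ge hc).2
  rw [← h.flo, ← h.flo, ← h.flo] at h1
  exact_mod_cast h1

/-- the shifted sum -/
theorem shift (s : ℕ) : ∃ N : ℤ, (p : ℝ) ^ s * (q : ℝ) ^ ℓ s * (∑' a, f p q ℓ a) =
    N + ∑' a, (p : ℝ) ^ s * (q : ℝ) ^ ℓ s * f p q ℓ (a + s) := by
  have hp := p_pos h
  have hq := q_pos h
  refine ⟨∑ a ∈ Finset.range s, ((p ^ (s - a) * q ^ (ℓ s - ℓ a) : ℕ) : ℤ), ?_⟩
  rw [tsum_mul_left, ← (summable_f h).sum_add_tsum_nat_add s, mul_add, Finset.mul_sum]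
  congr 1
  push_cast
  apply Finset.sum_congr rfl
  intro a ha
  rw [Finset.mem_range] at ha
  have h1 := mono h ha.le
  unfold f
  rw [mul_one_div, div_eq_iff (by positivity)]
  have h2 : (p : ℝ) ^ s = (p : ℝ) ^ (s - a) * (p : ℝ) ^ a := by
    rw [← pow_add, Nat.sub_add_cancel ha.le]
  have h3 : (q : ℝ) ^ ℓ s = (q : ℝ) ^ (ℓ s - ℓ a) * (q : ℝ) ^ ℓ a := by
    rw [← pow_add, Nat.sub_add_cancel h1]
  rw [h2, h3]
  ring

theorem shift_term_lt {a s : ℕ} (hc : ph θ a + ph θ s < 1) :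
    (p : ℝ) ^ s * (q : ℝ) ^ ℓ s * f p q ℓ (a + s) = f p q ℓ a := by
  have hp := p_pos h
  have hq := q_pos h
  unfold f
  rw [ell_add_lt h hc, pow_add, pow_add]
  field_simp

theorem shift_term_ge {a s : ℕ} (hc : 1 ≤ ph θ a + ph θ s) :
    (p : ℝ) ^ s * (q : ℝ) ^ ℓ s * f p q ℓ (a + s) = f p q ℓ a / q := by
  have hp := p_pos h
  have hq := q_pos h
  unfold f
  rw [ell_add_ge h hc, pow_add, pow_add, pow_add]
  field_simp

open Classical in
/-- the approximation from above -/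
theorem app1 (s' : ℕ) : ∃ N : ℤ, ((p : ℝ) ^ s' * (q : ℝ) ^ ℓ s' - 1) * (∑' a, f p q ℓ a) =
    N - (1 - 1 / q) * ∑' a, (if 1 ≤ ph θ a + ph θ s' then f p q ℓ a else 0) := by
  obtain ⟨N, hN⟩ := shift h s'
  refine ⟨N, ?_⟩
  have hq := q_pos h
  have hs1 : Summable fun a => (if 1 ≤ ph θ a + ph θ s' then f p q ℓ a else 0) := by
    refine Summable.of_nonneg_of_le (fun a => ?_) (fun a => ?_) (summable_f h)
    · split_ifs
      · exact (f_pos h a).le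
      · exact le_rfl
    · split_ifs
      · exact le_rfl
      · exact (f_pos h a).le
  have h1 : ∑' a, (p : ℝ) ^ s' * (q : ℝ) ^ ℓ s' * f p q ℓ (a + s') =
      ∑' a, f p q ℓ a - (1 - 1 / q) * ∑' a, (if 1 ≤ ph θ a + ph θ s' then f p q ℓ a else 0) := by
    rw [← tsum_mul_left, ← (summable_f h).tsum_sub (hs1.mul_left _)]
    congr 1
    funext a
    split_ifs with hc
    · rw [shift_term_ge h hc]
      ring
    · rw [shift_term_lt h (not_le.1 hc)]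
      ring
  rw [sub_mul, hN, h1]
  ring

open Classical in
/-- the approximation from below -/
theorem app2 (s : ℕ) : ∃ N : ℤ, ((p : ℝ) ^ s * (q : ℝ) ^ ℓ s * q - 1) * (∑' a, f p q ℓ a) =
    N + (q - 1) * ∑' a, (if 1 ≤ a ∧ ph θ a + ph θ s < 1 then f p q ℓ a else 0) := by
  obtain ⟨N, hN⟩ := shift h s
  refine ⟨q * N + (q - 1), ?_⟩
  have hq := q_pos h
  have hs1 : Summable fun a => (if 1 ≤ a ∧ ph θ a + ph θ s < 1 then f p q ℓ a else 0) := by
    refine Summable.of_nonneg_of_le (fun a => ?_) (fun a => ?_) (summable_f h)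
    · split_ifs
      · exact (f_pos h a).le
      · exact le_rfl
    · split_ifs
      · exact le_rfl
      · exact (f_pos h a).le
  have hs2 : Summable fun a : ℕ => (if a = 0 then (1 : ℝ) else 0) :=
    (hasSum_ite_eq (0 : ℕ) (1 : ℝ)).summable
  have hs3 : ∑' a : ℕ, (if a = 0 then (1 : ℝ) else 0) = 1 := (hasSum_ite_eq (0 : ℕ) (1 : ℝ)).tsum_eq
  have h1 : (q : ℝ) * ∑' a, (p : ℝ) ^ s * (q : ℝ) ^ ℓ s * f p q ℓ (a + s) =
      ∑' a, f p q ℓ a + (q - 1) * (1 + ∑' a, (if 1 ≤ a ∧ ph θ a + ph θ s < 1 then f p q ℓ a else 0)) := by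
    have h4 : 1 + ∑' a, (if 1 ≤ a ∧ ph θ a + ph θ s < 1 then f p q ℓ a else 0) =
        ∑' a : ℕ, ((if a = 0 then (1 : ℝ) else 0) +
          (if 1 ≤ a ∧ ph θ a + ph θ s < 1 then f p q ℓ a else 0)) := by
      rw [hs2.tsum_add hs1, hs3]
    rw [h4, ← tsum_mul_left, ← tsum_mul_left, ← (summable_f h).tsum_add ((hs2.add hs1).mul_left _)]
    congr 1
    funext a
    rcases Nat.eq_zero_or_pos a with h0 | h0
    · subst h0
      have hc : ph θ 0 + ph θ s < 1 := by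
        rw [ph_zero, zero_add]
        exact ph_lt_one θ s
      rw [shift_term_lt h hc, f_zero h]
      simp
    · by_cases hc : ph θ a + ph θ s < 1
      · rw [shift_term_lt h hc, if_neg (by omega), if_pos ⟨h0, hc⟩]
        ring
      · rw [shift_term_ge h (not_lt.1 hc), if_neg (by omega), if_neg (fun h2 => hc h2.2)]
        field_simp
        ring
  calc ((p : ℝ) ^ s * (q : ℝ) ^ ℓ s * q - 1) * (∑' a, f p q ℓ a)
      = q * ((p : ℝ) ^ s * (q : ℝ) ^ ℓ s * (∑' a, f p q ℓ a)) - ∑' a, f p q ℓ a := by ring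
    _ = _ := by
      rw [hN, mul_add, h1]
      push_cast
      ring

end

end Pool.Agent.N514.LC
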