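import Mathlib

/-!
# Lcm series for two primes: one-sided approximations

For an irrational number `θ` there are pairs `(s', s)` of one-sided best approximations with good separation properties.
-/

set_option autoImplicit false

namespace Pool.Agent.N514.LC

/-- fractional part of `a θ` -/
noncomputable def ph (θ : ℝ) (a : ℕ) : ℝ := Int.fract ((a : ℝ) * θ)

theorem ph_nonneg (θ : ℝ) (a : ℕ) : 0 ≤ ph θ a := Int.fract_nonneg _

theorem ph_lt_one (θ : ℝ) (a : ℕ) : ph θ a < 1 := Int.fract_lt_one _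

theorem ph_zero (θ : ℝ) : ph θ 0 = 0 := by simp [ph]

theorem ph_add_lt {θ : ℝ} {a b : ℕ} (h : ph θ a + ph θ b < 1) :
    ph θ (a + b) = ph θ a + ph θ b ∧
      ⌊((a + b : ℕ) : ℝ) * θ⌋ = ⌊(a : ℝ) * θ⌋ + ⌊(b : ℝ) * θ⌋ := by
  have h1 : ((a + b : ℕ) : ℝ) * θ = (a : ℝ) * θ + (b : ℝ) * θ := by push_cast; ring
  have h2 : ⌊(a : ℝ) * θ + (b : ℝ) * θ⌋ = ⌊(a : ℝ) * θ⌋ + ⌊(b : ℝ) * θ⌋ := by
    rw [Int.floor_eq_iff]
    have ha := Int.floor_add_fract ((a : ℝ) * θ)
    have hb := Int.floor_add_fract ((b : ℝ) * θ)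
    have ha0 := ph_nonneg θ a
    have hb0 := ph_nonneg θ b
    unfold ph at h ha0 hb0
    push_cast
    constructor <;> linarith
  refine ⟨?_, by rw [h1, h2]⟩
  unfold ph
  rw [h1]
  unfold Int.fract
  rw [h2]
  push_cast
  ring

theorem ph_add_ge {θ : ℝ} {a b : ℕ} (h : 1 ≤ ph θ a + ph θ b) :
    ph θ (a + b) = ph θ a + ph θ b - 1 ∧
      ⌊((a + b : ℕ) : ℝ) * θ⌋ = ⌊(a : ℝ) * θ⌋ + ⌊(b : ℝ) * θ⌋ + 1 := by
  have h1 : ((a + b : ℕ) : ℝ) * θ = (a : ℝ) * θ + (b : ℝ) * θ := by push_cast; ring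
  have h2 : ⌊(a : ℝ) * θ + (b : ℝ) * θ⌋ = ⌊(a : ℝ) * θ⌋ + ⌊(b : ℝ) * θ⌋ + 1 := by
    rw [Int.floor_eq_iff]
    have ha := Int.floor_add_fract ((a : ℝ) * θ)
    have hb := Int.floor_add_fract ((b : ℝ) * θ)
    have ha0 := ph_lt_one θ a
    have hb0 := ph_lt_one θ b
    unfold ph at h ha0 hb0
    push_cast
    constructor <;> linarith
  refine ⟨?_, by rw [h1, h2]⟩
  unfold ph
  rw [h1]
  unfold Int.fract
  rw [h2]
  push_cast
  ring

theorem ph_pos {θ : ℝ} (hθ : Irrational θ) {a : ℕ} (ha : 1 ≤ a) : 0 < ph θ a := by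
  rcases (ph_nonneg θ a).lt_or_eq with h | h
  · exact h
  · exfalso
    have h1 : Irrational ((a : ℝ) * θ) := by
      exact (Nat.cast_ne_zero.2 (by omega : a ≠ 0) : ((a : ℚ)) ≠ 0) |> fun h => by
        have := hθ.ratCast_mul h
        simpa using this
    unfold ph at h
    have h2 := Int.floor_add_fract ((a : ℝ) * θ)
    rw [← h, add_zero] at h2
    exact h1 ⟨(⌊(a : ℝ) * θ⌋ : ℚ), by rw [← h2]; simp⟩

/-- multiples of a small phase -/
theorem ph_mul_small {θ : ℝ} {a : ℕ} : ∀ j : ℕ, (j : ℝ) * ph θ a < 1 → ph θ (j * a) = j * ph θ a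
  | 0, _ => by simp [ph_zero]
  | j + 1, h => by
    have h0 := ph_nonneg θ a
    push_cast at h
    have h1 : (j : ℝ) * ph θ a < 1 := by nlinarith
    have h2 := ph_mul_small j h1
    have h3 : ph θ (j * a) + ph θ a < 1 := by rw [h2]; linarith
    have h4 := (ph_add_lt h3).1
    rw [show (j + 1) * a = j * a + a by ring, h4, h2]
    push_cast
    ring

/-- multiples of a phase close to one -/
theorem ph_mul_big {θ : ℝ} {a : ℕ} : ∀ j : ℕ, ((j : ℝ) + 1) * (1 - ph θ a) < 1 →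
    ph θ ((j + 1) * a) = 1 - ((j : ℝ) + 1) * (1 - ph θ a)
  | 0, _ => by simp
  | j + 1, h => by
    have h0 := ph_lt_one θ a
    push_cast at h
    have h1 : ((j : ℝ) + 1) * (1 - ph θ a) < 1 := by nlinarith
    have h2 := ph_mul_big j h1
    have h3 : 1 ≤ ph θ ((j + 1) * a) + ph θ a := by rw [h2]; nlinarith
    have h4 := (ph_add_ge h3).1
    rw [show (j + 1 + 1) * a = (j + 1) * a + a by ring, h4, h2]
    push_cast
    ring

/-- there are arbitrarily small phases -/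
theorem exists_small {θ : ℝ} (hθ : Irrational θ) {δ : ℝ} (hδ : 0 < δ) :
    ∃ a : ℕ, 1 ≤ a ∧ ph θ a < δ := by
  obtain ⟨n, hn⟩ := exists_nat_one_div_lt hδ
  obtain ⟨k, hk0, -, hk⟩ := Real.exists_nat_abs_mul_sub_round_le θ (Nat.succ_pos n)
  have hk1 : |(k : ℝ) * θ - round ((k : ℝ) * θ)| < δ := by
    refine lt_of_le_of_lt hk (lt_of_le_of_lt ?_ hn)
    rw [one_div, one_div]
    apply inv_anti₀ (by positivity)
    push_cast
    linarith
  rcases le_or_gt ((round ((k : ℝ) * θ) : ℤ) : ℝ) ((k : ℝ) * θ) with h | h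
  · refine ⟨k, hk0, ?_⟩
    have h1 : (k : ℝ) * θ - round ((k : ℝ) * θ) < 1 := by
      have := abs_sub_round ((k : ℝ) * θ)
      have h2 := le_abs_self ((k : ℝ) * θ - round ((k : ℝ) * θ))
      linarith
    have h2 : ⌊(k : ℝ) * θ⌋ = round ((k : ℝ) * θ) := by
      rw [Int.floor_eq_iff]
      constructor <;> linarith
    unfold ph Int.fract
    rw [h2]
    exact lt_of_le_of_lt (le_abs_self _) hk1
  · -- phase close to one
    have hκ : 1 - ph θ k < δ := by
      have h3 := abs_sub_round ((k : ℝ) * θ)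
      have h4 := neg_abs_le ((k : ℝ) * θ - round ((k : ℝ) * θ))
      have h2 : ⌊(k : ℝ) * θ⌋ = round ((k : ℝ) * θ) - 1 := by
        rw [Int.floor_eq_iff]
        push_cast
        constructor <;> linarith
      unfold ph Int.fract
      rw [h2]
      push_cast
      linarith
    have hκ0 : 0 < 1 - ph θ k := by have := ph_lt_one θ k; linarith
    have hκ1 : 1 - ph θ k < 1 := by have := ph_pos hθ hk0; linarith
    -- the largest multiple below one
    have hex : ∃ j : ℕ, 1 ≤ ((j : ℝ) + 1 + 1) * (1 - ph θ k) := by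
      obtain ⟨j, hj⟩ := exists_nat_gt (1 / (1 - ph θ k))
      refine ⟨j, ?_⟩
      rw [div_lt_iff₀ hκ0] at hj
      nlinarith
    obtain ⟨j, hj, hmin⟩ : ∃ j : ℕ, 1 ≤ ((j : ℝ) + 1 + 1) * (1 - ph θ k) ∧
        ∀ i < j, ¬ 1 ≤ ((i : ℝ) + 1 + 1) * (1 - ph θ k) := by
      classical
      exact ⟨Nat.find hex, Nat.find_spec hex, fun i hi => Nat.find_min hex hi⟩
    have hj2 : ((j : ℝ) + 1) * (1 - ph θ k) < 1 := by
      rcases Nat.eq_zero_or_pos j with h0 | h0
      · rw [h0]; push_cast; linarith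
      · have := hmin (j - 1) (by omega)
        push Not at this
        have hc : (((j - 1 : ℕ) : ℝ)) = (j : ℝ) - 1 := by
          rw [Nat.cast_sub h0]; simp
        rw [hc] at this
        linarith
    refine ⟨(j + 1) * k, ?_, ?_⟩
    · have : 1 * 1 ≤ (j + 1) * k := Nat.mul_le_mul (by omega) hk0
      omega
    · rw [ph_mul_big j hj2]
      linarith

/-- for every positive phase there is a complementary one -/
theorem exists_comp {θ : ℝ} (hθ : Irrational θ) {b : ℕ} (hb : 1 ≤ b) :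
    ∃ a : ℕ, 1 ≤ ph θ a + ph θ b := by
  have h0 := ph_pos hθ hb
  have h1 := ph_lt_one θ b
  have hex : ∃ j : ℕ, 1 ≤ ((j : ℝ) + 1) * ph θ b := by
    obtain ⟨j, hj⟩ := exists_nat_gt (1 / ph θ b)
    refine ⟨j, ?_⟩
    rw [div_lt_iff₀ h0] at hj
    nlinarith
  obtain ⟨j, hj, hmin⟩ : ∃ j : ℕ, 1 ≤ ((j : ℝ) + 1) * ph θ b ∧
      ∀ i < j, ¬ 1 ≤ ((i : ℝ) + 1) * ph θ b := by
    classical
    exact ⟨Nat.find hex, Nat.find_spec hex, fun i hi => Nat.find_min hex hi⟩
  have hj2 : (j : ℝ) * ph θ b < 1 := by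
    rcases Nat.eq_zero_or_pos j with h2 | h2
    · rw [h2]; push_cast; linarith
    · have := hmin (j - 1) (by omega)
      push Not at this
      have hc : (((j - 1 : ℕ) : ℝ)) = (j : ℝ) - 1 := by
        rw [Nat.cast_sub h2]; simp
      rw [hc] at this
      linarith
  refine ⟨j * b, ?_⟩
  rw [ph_mul_small j hj2]
  linarith

/-- the pairs `(s', s)` -/
theorem comb {θ : ℝ} (hθ : Irrational θ) (K : ℕ) : ∃ s' s : ℕ, 1 ≤ s' ∧ K ≤ s ∧ 1 ≤ s ∧
    1 ≤ ph θ s + ph θ s' ∧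
    (∀ a : ℕ, 1 ≤ a → ph θ a + ph θ s < 1 → s + s' ≤ a) ∧
    ∀ a : ℕ, 1 ≤ ph θ a + ph θ s' → a ≠ s → 2 * s ≤ a := by
  classical
  -- the bound for the phases of the small numbers
  obtain ⟨δ, hδ0, hδ⟩ : ∃ δ : ℝ, 0 < δ ∧ ∀ a < K, δ ≤ 1 - ph θ a := by
    induction K with
    | zero => exact ⟨1, one_pos, fun a ha => absurd ha (by omega)⟩
    | succ K ih =>
      obtain ⟨δ, h1, h2⟩ := ih
      refine ⟨min δ (1 - ph θ K), lt_min h1 (by have := ph_lt_one θ K; linarith), fun a ha => ?_⟩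
      rcases Nat.lt_or_ge a K with h3 | h3
      · exact (min_le_left _ _).trans (h2 a h3)
      · have : a = K := by omega
        rw [this]
        exact min_le_right _ _
  have hex1 : ∃ a : ℕ, 1 ≤ a ∧ ph θ a < δ := exists_small hθ hδ0
  obtain ⟨s', hs'1, hs'2, hs'3⟩ : ∃ s' : ℕ, 1 ≤ s' ∧ ph θ s' < δ ∧ ∀ a : ℕ, 1 ≤ a → a < s' → δ ≤ ph θ a := by
    refine ⟨Nat.find hex1, (Nat.find_spec hex1).1, (Nat.find_spec hex1).2, fun a ha1 ha2 => ?_⟩
    have := Nat.find_min hex1 ha2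
    push Not at this
    exact this ha1
  have hex2 : ∃ a : ℕ, 1 ≤ ph θ a + ph θ s' := exists_comp hθ hs'1
  obtain ⟨s, hs1, hs2⟩ : ∃ s : ℕ, 1 ≤ ph θ s + ph θ s' ∧ ∀ a : ℕ, 1 ≤ ph θ a + ph θ s' → s ≤ a :=
    ⟨Nat.find hex2, Nat.find_spec hex2, fun a ha => Nat.find_min' hex2 ha⟩
  have hA : ∀ a : ℕ, 1 ≤ a → ph θ a + ph θ s < 1 → s + s' ≤ a := by
    intro a ha1 ha2
    have h1 : ph θ a < ph θ s' := by linarith
    have h2 : s' ≤ a := by
      by_contra h
      have := hs'3 a ha1 (by omega)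
      linarith
    obtain ⟨d, rfl⟩ := Nat.exists_eq_add_of_le h2
    rcases lt_or_ge (ph θ s' + ph θ d) 1 with h3 | h3
    · have h4 := (ph_add_lt h3).1
      have h5 := ph_nonneg θ d
      linarith
    · have := hs2 d (by linarith)
      omega
  refine ⟨s', s, hs'1, ?_, ?_, hs1, hA, ?_⟩
  · by_contra h
    have := hδ s (by omega)
    linarith
  · by_contra h
    have h0 : s = 0 := by omega
    rw [h0, ph_zero] at hs1
    have := ph_lt_one θ s'
    linarith
  · intro a ha1 ha2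
    have h1 := hs2 a ha1
    obtain ⟨l, rfl⟩ := Nat.exists_eq_add_of_le h1
    have hl : 1 ≤ l := by omega
    rcases lt_or_ge (ph θ s + ph θ l) 1 with h3 | h3
    · have := hA l hl (by linarith)
      omega
    · have h4 := (ph_add_ge h3).1
      have h5 := ph_lt_one θ s
      have := hs2 l (by linarith)
      omega

end Pool.Agent.N514.LC
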