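import Pool.Agent.N514.LC.Ana

/-!
# Lcm series for two primes: the numbers `1, F, F ^ 2` are linearly independent over `ℚ`
-/

set_option autoImplicit false

namespace Pool.Agent.N514.LC

section

variable {p q : ℕ} {θ : ℝ} {ℓ : ℕ → ℕ} (h : Dat p q θ ℓ)

include h

open Classical in
/-- two approximations -/
theorem key (K : ℕ) : ∃ (H H' N N' : ℤ) (e e' : ℝ),
    ((H : ℝ) - 1) * (∑' a, f p q ℓ a) = N + e ∧ ((H' : ℝ) - 1) * (∑' a, f p q ℓ a) = N' + e' ∧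
    0 ≤ e ∧ e ≤ 2 * (q : ℝ) ^ 2 * (1 / 4) ^ K ∧ 1 ≤ (H' : ℝ) ∧ (H' : ℝ) * e ≤ 2 * (q : ℝ) ^ 2 * (1 / 4) ^ K ∧
    e' < 0 ∧ -e' ≤ 3 * q * (1 / 4) ^ K ∧ |(H : ℝ) * e' + (q - 1)| ≤ 2 * (q : ℝ) ^ 2 * (1 / 4) ^ K := by
  obtain ⟨s', s, hs', hKs, hs, hss, hA, hA'⟩ := comb h.irr K
  obtain ⟨N', hN'⟩ := app1 h s'
  obtain ⟨N, hN⟩ := app2 h s
  have hp := p_pos h
  have hq := q_pos h
  have hq2 := q_two h
  have hr := rho_le h
  have hr0 := rho_pos h
  obtain ⟨ρ, hρ⟩ : ∃ ρ : ℝ, ρ = 1 / (p : ℝ) ^ 2 := ⟨_, rfl⟩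
  obtain ⟨Q, hQ⟩ : ∃ Q : ℝ, Q = (q : ℝ) := ⟨_, rfl⟩
  -- the two sums
  have hR2 := part_le h (s + s') (fun a => if 1 ≤ a ∧ ph θ a + ph θ s < 1 then f p q ℓ a else 0)
    (fun a => by
      split_ifs
      · exact (f_pos h a).le
      · exact le_rfl)
    (fun a => by
      split_ifs
      · exact le_rfl
      · exact (f_pos h a).le)
    (fun a ha => by
      rw [if_neg]
      rintro ⟨h1, h2⟩
      have := hA a h1 h2
      omega)
  have hG := part_le h (2 * s) (fun a => if 1 ≤ ph θ a + ph θ s' ∧ a ≠ s then f p q ℓ a else 0)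
    (fun a => by
      split_ifs
      · exact (f_pos h a).le
      · exact le_rfl)
    (fun a => by
      split_ifs
      · exact le_rfl
      · exact (f_pos h a).le)
    (fun a ha => by
      rw [if_neg]
      rintro ⟨h1, h2⟩
      have := hA' a h1 h2
      omega)
  have hsG : Summable fun a => if 1 ≤ ph θ a + ph θ s' ∧ a ≠ s then f p q ℓ a else 0 := by
    refine Summable.of_nonneg_of_le (fun a => ?_) (fun a => ?_) (summable_f h)
    · split_ifs
      · exact (f_pos h a).le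
      · exact le_rfl
    · split_ifs
      · exact le_rfl
      · exact (f_pos h a).le
  have hR1 : ∑' a, (if 1 ≤ ph θ a + ph θ s' then f p q ℓ a else 0) =
      f p q ℓ s + ∑' a, (if 1 ≤ ph θ a + ph θ s' ∧ a ≠ s then f p q ℓ a else 0) := by
    have h1 : HasSum (fun a : ℕ => if a = s then f p q ℓ s else 0) (f p q ℓ s) :=
      hasSum_ite_eq s (f p q ℓ s)
    rw [← (h1.add hsG.hasSum).tsum_eq]
    congr 1
    funext a
    by_cases h2 : a = s
    · subst h2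
      simp [hss]
    · simp [h2]
  obtain ⟨R2, hR2d⟩ : ∃ R2 : ℝ, R2 = ∑' a, (if 1 ≤ a ∧ ph θ a + ph θ s < 1 then f p q ℓ a else 0) := ⟨_, rfl⟩
  obtain ⟨G, hGd⟩ : ∃ G : ℝ, G = ∑' a, (if 1 ≤ ph θ a + ph θ s' ∧ a ≠ s then f p q ℓ a else 0) := ⟨_, rfl⟩
  rw [hR1, ← hGd] at hN'
  rw [← hR2d] at hN hR2
  rw [← hGd] at hG
  rw [← hρ] at hR2 hG hr hr0
  have hfs0 := f_pos h s
  have hfs1 := f_le h s
  rw [← hρ] at hfs1
  obtain ⟨φ, hφ⟩ : ∃ φ : ℝ, φ = f p q ℓ s := ⟨_, rfl⟩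
  rw [← hφ] at hfs0 hfs1 hN'
  -- powers
  have hu : ρ ^ s ≤ (1 / 4 : ℝ) ^ K := by
    calc ρ ^ s ≤ (1 / 4 : ℝ) ^ s := pow_le_pow_left₀ hr0.le hr s
      _ ≤ (1 / 4 : ℝ) ^ K := pow_le_pow_of_le_one (by norm_num) (by norm_num) hKs
  have hu0 : 0 < ρ ^ s := by positivity
  have hu1 : ρ ^ s ≤ 1 := pow_le_one₀ hr0.le (by linarith)
  have hv0 : 0 < ρ ^ s' := by positivity
  have hH' : (p : ℝ) ^ s' * (q : ℝ) ^ ℓ s' * ρ ^ s' ≤ 1 := by
    have h1 : (q : ℝ) ^ ℓ s' ≤ (p : ℝ) ^ s' := by exact_mod_cast h.le s'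
    rw [hρ, one_div_pow, mul_one_div, div_le_one (by positivity)]
    calc (p : ℝ) ^ s' * (q : ℝ) ^ ℓ s' ≤ (p : ℝ) ^ s' * (p : ℝ) ^ s' := by gcongr
      _ = ((p : ℝ) ^ 2) ^ s' := by ring
  have hH : (p : ℝ) ^ s * (q : ℝ) ^ ℓ s * ρ ^ s ≤ 1 := by
    have h1 : (q : ℝ) ^ ℓ s ≤ (p : ℝ) ^ s := by exact_mod_cast h.le s
    rw [hρ, one_div_pow, mul_one_div, div_le_one (by positivity)]
    calc (p : ℝ) ^ s * (q : ℝ) ^ ℓ s ≤ (p : ℝ) ^ s * (p : ℝ) ^ s := by gcongr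
      _ = ((p : ℝ) ^ 2) ^ s := by ring
  have hHf : (p : ℝ) ^ s * (q : ℝ) ^ ℓ s * φ = 1 := by
    rw [hφ]
    unfold f
    rw [mul_one_div, div_self (by positivity)]
  have hH'1 : 1 ≤ (p : ℝ) ^ s' * (q : ℝ) ^ ℓ s' := by
    have h1 : 1 ≤ p ^ s' * q ^ ℓ s' := by
      have h2 := Nat.one_le_pow s' p (by have := h.hp; omega)
      have h3 := Nat.one_le_pow (ℓ s') q (by have := h.hq; omega)
      nlinarith
    exact_mod_cast h1
  obtain ⟨y, hy⟩ : ∃ y : ℝ, y = (p : ℝ) ^ s' * (q : ℝ) ^ ℓ s' := ⟨_, rfl⟩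
  obtain ⟨x, hx⟩ : ∃ x : ℝ, x = (p : ℝ) ^ s * (q : ℝ) ^ ℓ s := ⟨_, rfl⟩
  have hx0 : 0 < x := by rw [hx]; positivity
  rw [← hx] at hN hH hHf
  rw [← hy] at hN' hH' hH'1
  rw [pow_add] at hR2
  have h2s : ρ ^ (2 * s) = ρ ^ s * ρ ^ s := by rw [← pow_add]; congr 1; ring
  rw [h2s] at hG
  rw [← hQ] at hN hN' hR2 hG hfs1 hq hq2 ⊢
  obtain ⟨u, hud⟩ : ∃ u : ℝ, u = ρ ^ s := ⟨_, rfl⟩
  obtain ⟨v, hvd⟩ : ∃ v : ℝ, v = ρ ^ s' := ⟨_, rfl⟩
  rw [← hud] at hu hu0 hu1 hH hR2 hG hfs1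
  rw [← hvd] at hv0 hH' hR2
  obtain ⟨w, hwd⟩ : ∃ w : ℝ, w = (1 / 4 : ℝ) ^ K := ⟨_, rfl⟩
  rw [← hwd] at hu ⊢
  have hv1 : v ≤ 1 := by nlinarith
  have hQ1 : 0 ≤ 1 - 1 / Q := by
    have : 1 / Q ≤ 1 / 2 := one_div_le_one_div_of_le (by norm_num) hq2
    linarith
  have hQ1' : 1 - 1 / Q ≤ 1 := by
    have : 0 ≤ 1 / Q := by positivity
    linarith
  have hQ1'' : 0 < 1 - 1 / Q := by
    have : 1 / Q ≤ 1 / 2 := one_div_le_one_div_of_le (by norm_num) hq2
    linarith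
  have hQQ : (1 - 1 / Q) * Q = Q - 1 := by field_simp
  have hxG : x * G ≤ 2 * Q * u := by
    calc x * G ≤ x * (2 * Q * (u * u)) := by gcongr; exact hG.2
      _ = 2 * Q * u * (x * u) := by ring
      _ ≤ 2 * Q * u * 1 := by gcongr
      _ = _ := by ring
  have hyR : y * R2 ≤ 2 * Q * u := by
    calc y * R2 ≤ y * (2 * Q * (u * v)) := by gcongr; exact hR2.2
      _ = 2 * Q * u * (y * v) := by ring
      _ ≤ 2 * Q * u * 1 := by gcongr
      _ = _ := by ring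
  have hR2le : R2 ≤ y * R2 := by
    have := hR2.1
    nlinarith
  refine ⟨((p ^ s * q ^ ℓ s * q : ℕ) : ℤ), ((p ^ s' * q ^ ℓ s' : ℕ) : ℤ), N, N', (Q - 1) * R2,
    -((1 - 1 / Q) * (φ + G)), ?_, ?_, ?_, ?_, ?_, ?_, ?_, ?_, ?_⟩
  · push_cast
    rw [← hx, ← hQ]
    exact hN
  · push_cast
    rw [← hy, hN']
    ring
  · exact mul_nonneg (by linarith) hR2.1
  · calc (Q - 1) * R2 ≤ Q * (2 * Q * u) := by
          have := hR2.1
          gcongr
          · linarith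
          · linarith
      _ ≤ Q * (2 * Q * w) := by gcongr
      _ = _ := by ring
  · push_cast
    rw [← hy]
    exact hH'1
  · push_cast
    rw [← hy]
    calc y * ((Q - 1) * R2) = (Q - 1) * (y * R2) := by ring
      _ ≤ Q * (2 * Q * u) := by
          have h3 : 0 ≤ y * R2 := mul_nonneg (by linarith) hR2.1
          gcongr
          linarith
      _ ≤ Q * (2 * Q * w) := by gcongr
      _ = _ := by ring
  · have h3 : 0 < (1 - 1 / Q) * (φ + G) := mul_pos hQ1'' (by have := hG.1; linarith)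
    linarith
  · rw [neg_neg]
    calc (1 - 1 / Q) * (φ + G) ≤ 1 * (Q * u + 2 * Q * (u * u)) := by
          have := hG.1
          have := hG.2
          gcongr
      _ ≤ 1 * (Q * u + 2 * Q * (u * 1)) := by gcongr
      _ = 3 * Q * u := by ring
      _ ≤ 3 * Q * w := by gcongr
  · push_cast
    rw [← hx, ← hQ]
    have h3 : x * Q * -((1 - 1 / Q) * (φ + G)) + (Q - 1) = -((Q - 1) * (x * G)) := by
      have h4 : x * Q * -((1 - 1 / Q) * (φ + G)) = -(((1 - 1 / Q) * Q) * (x * φ + x * G)) := by ring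
      rw [h4, hQQ, hHf]
      ring
    rw [h3, abs_neg, abs_of_nonneg (mul_nonneg (by linarith) (mul_nonneg hx0.le hG.1))]
    calc (Q - 1) * (x * G) ≤ Q * (2 * Q * u) := by
          have h5 : 0 ≤ x * G := mul_nonneg hx0.le hG.1
          gcongr
          linarith
      _ ≤ Q * (2 * Q * w) := by gcongr
      _ = _ := by ring

/-- `F` is irrational -/
theorem irr_F : Irrational (∑' a, f p q ℓ a) := by
  rintro ⟨r, hr⟩
  have hd : 0 < r.den := r.den_pos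
  have hd' : (0 : ℝ) < r.den := by exact_mod_cast hd
  have hq := q_pos h
  -- choose `K`
  obtain ⟨K, hK⟩ : ∃ K : ℕ, (1 / 4 : ℝ) ^ K < 1 / (3 * q * r.den) :=
    exists_pow_lt_of_lt_one (by positivity) (by norm_num)
  obtain ⟨H, H', N, N', e, e', -, h2, -, -, -, -, h7, h8, -⟩ := key h K
  have hF : (∑' a, f p q ℓ a) * r.den = r.num := by
    rw [← hr]
    exact_mod_cast Rat.mul_den_eq_num r
  have h9 : ((H' - 1) * r.num - N' * r.den : ℤ) = e' * r.den := by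
    push_cast
    rw [← hF]
    linear_combination (r.den : ℝ) * h2
  have h10 : e' * r.den < 0 := mul_neg_of_neg_of_pos h7 hd'
  have h11 : -1 < e' * r.den := by
    have h12 : -e' * r.den ≤ 3 * q * (1 / 4) ^ K * r.den := by gcongr
    have h13 : 3 * (q : ℝ) * (1 / 4) ^ K * r.den < 1 := by
      rw [lt_div_iff₀ (by positivity)] at hK
      linarith
    linarith
  rw [← h9] at h10 h11
  have h14 : ((H' - 1) * r.num - N' * r.den : ℤ) < 0 := by exact_mod_cast h10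
  have h15 : (-1 : ℤ) < ((H' - 1) * r.num - N' * r.den : ℤ) := by exact_mod_cast h11
  omega

/-- the numbers `1, F, F ^ 2` are linearly independent over the rational numbers -/
theorem lin (A B C : ℤ)
    (hrel : (A : ℝ) * (∑' a, f p q ℓ a) ^ 2 + B * (∑' a, f p q ℓ a) + C = 0) : A = 0 ∧ B = 0 ∧ C = 0 := by
  have hirr := irr_F h
  have hq := q_pos h
  have hq2 := q_two h
  obtain ⟨F, hF⟩ : ∃ F : ℝ, F = ∑' a, f p q ℓ a := ⟨_, rfl⟩
  have hF0 : 0 ≤ F := by rw [hF]; exact tsum_nonneg fun a => (f_pos h a).le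
  have hF1 : F ≤ 2 * q := by
    have := tail_le h 0
    simp only [add_zero, pow_zero, mul_one] at this
    rw [hF]
    exact this
  have key' := key h
  rw [← hF] at hrel hirr
  simp only [← hF] at key'
  by_cases hA : A = 0
  · rw [hA] at hrel
    simp only [Int.cast_zero, zero_mul, zero_add] at hrel
    by_cases hB : B = 0
    · rw [hB] at hrel
      simp only [Int.cast_zero, zero_mul, zero_add, Int.cast_eq_zero] at hrel
      exact ⟨hA, hB, hrel⟩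
    · exfalso
      apply hirr
      refine ⟨(-C : ℚ) / B, ?_⟩
      have hB' : (B : ℝ) ≠ 0 := by exact_mod_cast hB
      push_cast
      rw [div_eq_iff hB']
      linarith
  · exfalso
    -- `A (q - 1) F` is irrational
    have hA' : (A : ℝ) ≠ 0 := by exact_mod_cast hA
    obtain ⟨W, hW⟩ : ∃ W : ℝ, W = A * (q - 1) * F := ⟨_, rfl⟩
    have hWirr : Irrational W := by
      rw [hW]
      have h1 : ((A * ((q : ℤ) - 1) : ℤ) : ℚ) ≠ 0 := by
        have h2 : (q : ℤ) - 1 ≠ 0 := by have := h.hq; omega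
        exact_mod_cast mul_ne_zero hA h2
      have := hirr.ratCast_mul h1
      push_cast at this
      exact this
    obtain ⟨κ, hκ0, hκ⟩ : ∃ κ : ℝ, 0 < κ ∧ ∀ m : ℤ, κ ≤ |W - m| := by
      refine ⟨|W - round W|, ?_, fun m => round_le W m⟩
      rw [abs_pos, sub_ne_zero]
      intro h1
      exact hWirr ⟨round W, by rw [h1]; simp⟩
    obtain ⟨Q, hQ⟩ : ∃ Q : ℝ, Q = (q : ℝ) := ⟨_, rfl⟩
    rw [← hQ] at hW hq hq2 hF1
    simp only [← hQ] at key'
    obtain ⟨M, hM⟩ : ∃ M : ℝ, M = |(A : ℝ)| * (2 * Q * (2 * Q ^ 2 + 3 * Q) + 2 * Q * (2 * Q ^ 2) +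
      3 * Q * (2 * Q ^ 2)) + |(B : ℝ)| * (2 * Q ^ 2) + 1 := ⟨_, rfl⟩
    have hM0 : 0 < M := by rw [hM]; positivity
    obtain ⟨K, hK⟩ : ∃ K : ℕ, (1 / 4 : ℝ) ^ K < κ / M :=
      exists_pow_lt_of_lt_one (by positivity) (by norm_num)
    obtain ⟨H, H', N, N', e, e', h1, h2, h3, h4, h5, h6, h7, h8, h9⟩ := key' K
    obtain ⟨w, hwd⟩ : ∃ w : ℝ, w = (1 / 4 : ℝ) ^ K := ⟨_, rfl⟩
    have hw0 : 0 < w := by rw [hwd]; positivity
    have hw1 : w ≤ 1 := by rw [hwd]; exact pow_le_one₀ (by norm_num) (by norm_num)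
    rw [← hwd] at hK h4 h6 h8 h9
    -- the integer
    obtain ⟨Z, hZ⟩ : ∃ Z : ℤ, Z = -C * (H - 1) * (H' - 1) - A * N * N' - B * (H' - 1) * N := ⟨_, rfl⟩
    have hZ1 : (Z : ℝ) = A * (N * e' + N' * e + e * e') + B * (H' - 1) * e := by
      rw [hZ]
      push_cast
      have h10 : (A : ℝ) * (N + e) * (N' + e') + B * (H' - 1) * (N + e) + C * (H - 1) * (H' - 1) = 0 := by
        rw [← h1, ← h2]
        linear_combination ((H : ℝ) - 1) * (H' - 1) * hrel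
      linear_combination -h10
    have hZ2 : (Z : ℝ) + W = A * (F * ((H * e' + (Q - 1)) - e') + ((H' - 1) * e) * F - e * e') +
        B * ((H' - 1) * e) := by
      rw [hZ1, hW]
      have hN : (N : ℝ) = (H - 1) * F - e := by linarith
      have hN' : (N' : ℝ) = (H' - 1) * F - e' := by linarith
      rw [hN, hN']
      ring
    have h11 : |(H' - 1 : ℝ) * e| ≤ 2 * Q ^ 2 * w := by
      rw [abs_of_nonneg (mul_nonneg (by linarith) h3)]
      nlinarith
    have h12 : |e'| ≤ 3 * Q * w := by rw [abs_of_neg h7]; exact h8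
    have h13 : |e| ≤ 2 * Q ^ 2 * w := by rw [abs_of_nonneg h3]; exact h4
    have h14 : |(Z : ℝ) + W| ≤ M * w := by
      rw [hZ2, hM]
      have hF0' : |F| ≤ 2 * Q := by rw [abs_of_nonneg hF0]; exact hF1
      calc |(A : ℝ) * (F * ((H * e' + (Q - 1)) - e') + ((H' - 1) * e) * F - e * e') + B * ((H' - 1) * e)|
          ≤ |(A : ℝ)| * (|F| * (|H * e' + (Q - 1)| + |e'|) + |(H' - 1 : ℝ) * e| * |F| + |e| * |e'|) +
            |(B : ℝ)| * |(H' - 1 : ℝ) * e| := by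
            refine (abs_add_le _ _).trans ?_
            rw [abs_mul, abs_mul]
            gcongr
            refine (abs_sub _ _).trans ?_
            rw [abs_mul e e']
            gcongr
            refine (abs_add_le _ _).trans ?_
            rw [abs_mul, abs_mul (((H' : ℝ) - 1) * e) F]
            gcongr
            exact abs_sub _ _
        _ ≤ |(A : ℝ)| * (2 * Q * (2 * Q ^ 2 * w + 3 * Q * w) + 2 * Q ^ 2 * w * (2 * Q) +
              2 * Q ^ 2 * w * (3 * Q * 1)) + |(B : ℝ)| * (2 * Q ^ 2 * w) := by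
            gcongr
            refine h12.trans ?_
            gcongr
        _ ≤ _ := by
            have : 0 ≤ w := hw0.le
            nlinarith [abs_nonneg (A : ℝ), abs_nonneg (B : ℝ)]
    have h15 := hκ (-Z)
    rw [lt_div_iff₀ hM0] at hK
    have h16 : W - ((-Z : ℤ) : ℝ) = Z + W := by push_cast; ring
    rw [h16] at h15
    linarith

end

end Pool.Agent.N514.LC
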