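import Pool.Agent.N514.LC.Ana

/-!
# Lcm series for two primes: the relation between the two Hecke-Mahler values
-/

set_option autoImplicit false

namespace Pool.Agent.N514.LC

/-- the data for two different primes -/
structure Pr (p q : ℕ) : Prop where
  hp : p.Prime
  hq : q.Prime
  ne : p ≠ q

theorem Pr.symm {p q : ℕ} (h : Pr p q) : Pr q p := ⟨h.hq, h.hp, h.ne.symm⟩

/-- the integral parts -/
def el (p q : ℕ) (a : ℕ) : ℕ := Nat.log q (p ^ a)

theorem irr_logb {p q : ℕ} (h : Pr p q) : Irrational (Real.logb q p) := by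
  rintro ⟨r, hr⟩
  have hp2 := h.hp.two_le
  have hq2 := h.hq.two_le
  have hp : (1 : ℝ) < p := by exact_mod_cast (by omega : 1 < p)
  have hq : (1 : ℝ) < q := by exact_mod_cast (by omega : 1 < q)
  have h1 : 0 < Real.logb q p := Real.logb_pos hq hp
  have hrpos : 0 < r := by
    rw [← hr] at h1
    exact_mod_cast h1
  have hden : (0 : ℝ) < r.den := by exact_mod_cast r.den_pos
  have h2 : (r.den : ℝ) * Real.logb q p = r.num := by
    rw [← hr]
    exact_mod_cast Rat.den_mul_eq_num r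
  have hnum : ((r.num.toNat : ℕ) : ℤ) = r.num := Int.toNat_of_nonneg (Rat.num_nonneg.2 hrpos.le)
  have h3 : (p : ℝ) ^ r.den = (q : ℝ) ^ r.num.toNat := by
    have h4 : (q : ℝ) ^ (Real.logb q p) = p := Real.rpow_logb (by linarith) (by linarith) (by linarith)
    calc (p : ℝ) ^ r.den = ((q : ℝ) ^ (Real.logb q p)) ^ (r.den : ℝ) := by rw [h4, Real.rpow_natCast]
      _ = (q : ℝ) ^ (Real.logb q p * r.den) := by rw [← Real.rpow_mul (by linarith)]
      _ = (q : ℝ) ^ ((r.num.toNat : ℕ) : ℝ) := by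
          congr 1
          rw [mul_comm, h2]
          have : ((r.num.toNat : ℕ) : ℝ) = ((r.num.toNat : ℤ) : ℝ) := by push_cast; rfl
          rw [this, hnum]
      _ = _ := by rw [Real.rpow_natCast]
  have h5 : p ^ r.den = q ^ r.num.toNat := by exact_mod_cast h3
  have h6 : p ∣ q ^ r.num.toNat := by
    rw [← h5]
    exact dvd_pow_self p r.den_pos.ne'
  have h7 := h.hp.dvd_of_dvd_pow h6
  exact h.ne ((Nat.prime_dvd_prime_iff_eq h.hp h.hq).1 h7)

theorem dat {p q : ℕ} (h : Pr p q) : Dat p q (Real.logb q p) (el p q) where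
  hp := h.hp.two_le
  hq := h.hq.two_le
  irr := irr_logb h
  flo := fun a => by
    have hp2 := h.hp.two_le
    have hq2 := h.hq.two_le
    have h1 : (a : ℝ) * Real.logb q p = Real.logb q ((p ^ a : ℕ) : ℝ) := by
      push_cast
      rw [Real.logb_pow]
    have h2 : 0 ≤ (a : ℝ) * Real.logb q p := by
      apply mul_nonneg (Nat.cast_nonneg a)
      apply Real.logb_nonneg
      · exact_mod_cast (by omega : 1 < q)
      · exact_mod_cast (by omega : 1 ≤ p)
    rw [← Int.natCast_floor_eq_floor h2, h1]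
    unfold el
    rw [Real.natFloor_logb_natCast]
  le := fun a => Nat.pow_log_le_self q (pow_ne_zero a h.hp.ne_zero)
  lt := fun a => Nat.lt_pow_succ_log_self h.hq.one_lt (p ^ a)

theorem sum_part {x y : ℝ} (hx0 : 0 ≤ x) (hx : x < 1) (hy0 : 0 ≤ y) (hy : y < 1) (ℓ : ℕ → ℕ) :
    Summable (fun a : ℕ × ℕ => if ℓ a.1 < a.2 then x ^ a.1 * y ^ a.2 else 0) ∧
      ∑' a : ℕ × ℕ, (if ℓ a.1 < a.2 then x ^ a.1 * y ^ a.2 else 0) =
        y / (1 - y) * ∑' i : ℕ, x ^ i * y ^ ℓ i := by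
  have hgx := summable_geometric_of_lt_one hx0 hx
  have hgy := summable_geometric_of_lt_one hy0 hy
  have hc : Summable fun a : ℕ × ℕ => x ^ a.1 * y ^ a.2 :=
    hgx.mul_of_nonneg hgy (fun i => pow_nonneg hx0 i) (fun i => pow_nonneg hy0 i)
  have h1 : Summable (fun a : ℕ × ℕ => if ℓ a.1 < a.2 then x ^ a.1 * y ^ a.2 else 0) := by
    refine Summable.of_nonneg_of_le (fun a => ?_) (fun a => ?_) hc
    · split_ifs
      · positivity
      · exact le_rfl
    · split_ifs
      · exact le_rfl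
      · positivity
  refine ⟨h1, ?_⟩
  rw [h1.tsum_prod, ← tsum_mul_left]
  congr 1
  funext i
  have h2 : Summable fun j : ℕ => if ℓ i < j then x ^ i * y ^ j else 0 := by
    refine Summable.of_nonneg_of_le (fun a => ?_) (fun a => ?_) (hgy.mul_left (x ^ i))
    · split_ifs
      · positivity
      · exact le_rfl
    · split_ifs
      · exact le_rfl
      · positivity
  have h3 : (1 - y) ≠ 0 := by linarith
  have h4 : HasSum (fun j : ℕ => x ^ i * y ^ (ℓ i + 1) * y ^ j) (x ^ i * y ^ (ℓ i + 1) * (1 - y)⁻¹) :=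
    (hasSum_geometric_of_lt_one hy0 hy).mul_left _
  calc ∑' j : ℕ, (if ℓ i < j then x ^ i * y ^ j else 0)
      = ∑ j ∈ Finset.range (ℓ i + 1), (if ℓ i < j then x ^ i * y ^ j else 0) +
        ∑' j : ℕ, (if ℓ i < j + (ℓ i + 1) then x ^ i * y ^ (j + (ℓ i + 1)) else 0) :=
        (h2.sum_add_tsum_nat_add (ℓ i + 1)).symm
    _ = 0 + ∑' j : ℕ, x ^ i * y ^ (ℓ i + 1) * y ^ j := by
        congr 1
        · apply Finset.sum_eq_zero
          intro j hj
          rw [Finset.mem_range] at hj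
          rw [if_neg (by omega)]
        · congr 1
          funext j
          rw [if_pos (by omega), pow_add]
          ring
    _ = y / (1 - y) * (x ^ i * y ^ ℓ i) := by
        rw [h4.tsum_eq, zero_add, pow_succ]
        field_simp

/-- `1 / ((1 - x) (1 - y)) = 1 + y F / (1 - y) + x G / (1 - x)` with `x = 1 / p`, `y = 1 / q` -/
theorem rel {p q : ℕ} (h : Pr p q) :
    ((q : ℝ) - 1) * (∑' j, f q p (el q p) j) = (p + q - 1) - (p - 1) * (∑' i, f p q (el p q) i) := by
  have hp2 : (2 : ℝ) ≤ p := by exact_mod_cast h.hp.two_le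
  have hq2 : (2 : ℝ) ≤ q := by exact_mod_cast h.hq.two_le
  obtain ⟨x, hx⟩ : ∃ x : ℝ, x = 1 / p := ⟨_, rfl⟩
  obtain ⟨y, hy⟩ : ∃ y : ℝ, y = 1 / q := ⟨_, rfl⟩
  have hx0 : 0 ≤ x := by rw [hx]; positivity
  have hy0 : 0 ≤ y := by rw [hy]; positivity
  have hx1 : x < 1 := by rw [hx, div_lt_one (by linarith)]; linarith
  have hy1 : y < 1 := by rw [hy, div_lt_one (by linarith)]; linarith
  have hF : ∀ i, f p q (el p q) i = x ^ i * y ^ el p q i := by
    intro i
    unfold f
    rw [hx, hy, one_div_pow, one_div_pow, one_div_mul_one_div]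
  have hG : ∀ j, f q p (el q p) j = y ^ j * x ^ el q p j := by
    intro i
    unfold f
    rw [hx, hy, one_div_pow, one_div_pow, one_div_mul_one_div]
  simp only [hF, hG]
  obtain ⟨s1, e1⟩ := sum_part hx0 hx1 hy0 hy1 (el p q)
  obtain ⟨s2, e2⟩ := sum_part hy0 hy1 hx0 hx1 (el q p)
  have hgx := hasSum_geometric_of_lt_one hx0 hx1
  have hgy := hasSum_geometric_of_lt_one hy0 hy1
  have hc : Summable fun a : ℕ × ℕ => x ^ a.1 * y ^ a.2 :=
    hgx.summable.mul_of_nonneg hgy.summable (fun i => pow_nonneg hx0 i) (fun i => pow_nonneg hy0 i)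
  have hct : ∑' a : ℕ × ℕ, x ^ a.1 * y ^ a.2 = (1 - x)⁻¹ * (1 - y)⁻¹ := by
    rw [← hgx.tsum_eq, ← hgy.tsum_eq]
    exact (hgx.summable.tsum_mul_tsum hgy.summable hc).symm
  have s3 : HasSum (fun a : ℕ × ℕ => if a = (0, 0) then (1 : ℝ) else 0) 1 := hasSum_ite_eq (0, 0) 1
  -- the second sum, swapped
  have s2' : Summable (fun a : ℕ × ℕ => if el q p a.2 < a.1 then x ^ a.1 * y ^ a.2 else 0) := by
    have := (Equiv.prodComm ℕ ℕ).summable_iff.2 s2
    refine this.congr (fun a => ?_)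
    simp only [Function.comp, Equiv.prodComm_apply, Prod.fst_swap, Prod.snd_swap, mul_comm]
  have e2' : ∑' a : ℕ × ℕ, (if el q p a.2 < a.1 then x ^ a.1 * y ^ a.2 else 0) =
      x / (1 - x) * ∑' i : ℕ, y ^ i * x ^ el q p i := by
    rw [← e2, ← (Equiv.prodComm ℕ ℕ).tsum_eq]
    congr 1
    funext a
    simp only [Equiv.prodComm_apply, Prod.fst_swap, Prod.snd_swap, mul_comm]
  have hsplit : ∀ a : ℕ × ℕ, x ^ a.1 * y ^ a.2 =
      ((if el p q a.1 < a.2 then x ^ a.1 * y ^ a.2 else 0) +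
        (if el q p a.2 < a.1 then x ^ a.1 * y ^ a.2 else 0)) + (if a = (0, 0) then (1 : ℝ) else 0) := by
    rintro ⟨i, j⟩
    have h1 : el p q i < j ↔ p ^ i < q ^ j := by
      unfold el
      exact Nat.log_lt_iff_lt_pow h.hq.one_lt (pow_ne_zero i h.hp.ne_zero)
    have h2 : el q p j < i ↔ q ^ j < p ^ i := by
      unfold el
      exact Nat.log_lt_iff_lt_pow h.hp.one_lt (pow_ne_zero j h.hq.ne_zero)
    dsimp only
    rcases lt_trichotomy (p ^ i) (q ^ j) with h3 | h3 | h3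
    · have h4 : ¬ ((i, j) = ((0, 0) : ℕ × ℕ)) := by
        rintro h5
        rw [Prod.mk.injEq] at h5
        rw [h5.1, h5.2] at h3
        simp at h3
      rw [if_pos (h1.2 h3), if_neg (fun h5 => absurd (h2.1 h5) (by omega)), if_neg h4]
      ring
    · have h4 : i = 0 ∧ j = 0 := by
        rcases Nat.eq_zero_or_pos i with h5 | h5
        · refine ⟨h5, ?_⟩
          rw [h5, pow_zero] at h3
          by_contra h6
          exact absurd h3.symm (Nat.one_lt_pow h6 h.hq.one_lt).ne'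
        · exfalso
          have h6 : p ∣ q ^ j := by
            rw [← h3]
            exact dvd_pow_self p h5.ne'
          exact h.ne ((Nat.prime_dvd_prime_iff_eq h.hp h.hq).1 (h.hp.dvd_of_dvd_pow h6))
      obtain ⟨rfl, rfl⟩ := h4
      rw [if_neg (fun h5 => absurd (h1.1 h5) (by simp)), if_neg (fun h5 => absurd (h2.1 h5) (by simp)),
        if_pos rfl]
      simp
    · have h4 : ¬ ((i, j) = ((0, 0) : ℕ × ℕ)) := by
        rintro h5
        rw [Prod.mk.injEq] at h5
        rw [h5.1, h5.2] at h3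
        simp at h3
      rw [if_neg (fun h5 => absurd (h1.1 h5) (by omega)), if_pos (h2.2 h3), if_neg h4]
      ring
  have htot : (1 - x)⁻¹ * (1 - y)⁻¹ = y / (1 - y) * (∑' i : ℕ, x ^ i * y ^ el p q i) +
      x / (1 - x) * (∑' i : ℕ, y ^ i * x ^ el q p i) + 1 := by
    rw [← hct, ← e1, ← e2', ← s1.tsum_add s2', ← s3.tsum_eq, ← (s1.add s2').tsum_add s3.summable]
    exact tsum_congr hsplit
  obtain ⟨F, hFd⟩ : ∃ F : ℝ, F = ∑' i : ℕ, x ^ i * y ^ el p q i := ⟨_, rfl⟩
  obtain ⟨G, hGd⟩ : ∃ G : ℝ, G = ∑' i : ℕ, y ^ i * x ^ el q p i := ⟨_, rfl⟩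
  rw [← hFd, ← hGd] at htot
  rw [← hFd, ← hGd]
  rw [hx, hy] at htot
  have hp0 : (p : ℝ) ≠ 0 := by linarith
  have hq0 : (q : ℝ) ≠ 0 := by linarith
  have hp1 : (p : ℝ) - 1 ≠ 0 := by linarith
  have hq1 : (q : ℝ) - 1 ≠ 0 := by linarith
  have e3 : (1 - 1 / (p : ℝ)) = (p - 1) / p := by field_simp
  have e4 : (1 - 1 / (q : ℝ)) = (q - 1) / q := by field_simp
  rw [e3, e4] at htot
  field_simp at htot
  linarith

end Pool.Agent.N514.LC
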