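import Pool.Agent.N514.LC.Lin
import Pool.Agent.N514.LC.Rel

/-!
# Lcm series for two primes: reduction to a product of two series
-/

set_option autoImplicit false

namespace Pool.Agent.N514.LC

/-- the numbers composed of the primes of `P` -/
def Mon (P : Finset ℕ) (m : ℕ) : Prop := 0 < m ∧ m.primeFactors ⊆ P

theorem mon_pow {p q : ℕ} (h : Pr p q) (i j : ℕ) : Mon {p, q} (p ^ i * q ^ j) := by
  have hp := h.hp.pos
  have hq := h.hq.pos
  refine ⟨by positivity, fun r hr => ?_⟩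
  have hr1 := Nat.prime_of_mem_primeFactors hr
  have hr2 := Nat.dvd_of_mem_primeFactors hr
  rw [Finset.mem_insert, Finset.mem_singleton]
  rcases (Nat.Prime.dvd_mul hr1).1 hr2 with h1 | h1
  · left
    exact (Nat.prime_dvd_prime_iff_eq hr1 h.hp).1 (hr1.dvd_of_dvd_pow h1)
  · right
    exact (Nat.prime_dvd_prime_iff_eq hr1 h.hq).1 (hr1.dvd_of_dvd_pow h1)

theorem mon_iff {p q : ℕ} (h : Pr p q) {m : ℕ} (hm : Mon {p, q} m) : ∃ i j : ℕ, m = p ^ i * q ^ j := by
  refine ⟨m.factorization p, m.factorization q, ?_⟩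
  have h1 := Nat.prod_factorization_pow_eq_self hm.1.ne'
  have h2 : m.factorization.prod (fun a b => a ^ b) = ∏ r ∈ ({p, q} : Finset ℕ), r ^ m.factorization r := by
    apply Finsupp.prod_of_support_subset
    · rw [Nat.support_factorization]
      exact hm.2
    · intro r _
      exact pow_zero r
  rw [h2, Finset.prod_pair h.ne] at h1
  exact h1.symm

theorem mon_inj {p q : ℕ} (h : Pr p q) : Function.Injective (fun a : ℕ × ℕ => p ^ a.1 * q ^ a.2) := by
  rintro ⟨i, j⟩ ⟨i', j'⟩ he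
  dsimp only at he
  have hcop : Nat.Coprime p q := (Nat.coprime_primes h.hp h.hq).2 h.ne
  have key : ∀ a b c d : ℕ, p ^ a * q ^ b = p ^ c * q ^ d → a ≤ c := by
    intro a b c d h1
    have h2 : p ^ a ∣ p ^ c * q ^ d := by rw [← h1]; exact dvd_mul_right _ _
    have h3 : p ^ a ∣ p ^ c := (Nat.Coprime.pow a d hcop).dvd_of_dvd_mul_right h2
    exact (Nat.pow_dvd_pow_iff_le_right h.hp.one_lt).1 h3
  have h4 : i = i' := le_antisymm (key _ _ _ _ he) (key _ _ _ _ he.symm)
  subst h4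
  have h5 : q ^ j = q ^ j' := Nat.eq_of_mul_eq_mul_left (pow_pos h.hp.pos i) he
  have h6 : j = j' := Nat.pow_right_injective h.hq.two_le h5
  rw [h6]

theorem mon_infinite {p q : ℕ} (h : Pr p q) : (setOf (Mon {p, q})).Infinite := by
  apply Set.infinite_of_injective_forall_mem (f := fun i : ℕ => p ^ i * q ^ 0)
  · intro a b hab
    have := mon_inj h (a₁ := (a, 0)) (a₂ := (b, 0)) hab
    exact (Prod.mk.inj this).1
  · intro i
    exact mon_pow h i 0

theorem range_nth {p q : ℕ} (h : Pr p q) :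
    Set.range (Nat.nth (Mon {p, q})) = Set.range (fun a : ℕ × ℕ => p ^ a.1 * q ^ a.2) := by
  rw [Nat.range_nth_of_infinite (mon_infinite h)]
  ext m
  constructor
  · intro hm
    obtain ⟨i, j, rfl⟩ := mon_iff h hm
    exact ⟨(i, j), rfl⟩
  · rintro ⟨⟨i, j⟩, rfl⟩
    exact mon_pow h i j

/-- the least common multiple -/
theorem lcm_eq {p q : ℕ} (h : Pr p q) (n : ℕ) :
    (Finset.range (n + 1)).lcm (fun i => Nat.nth (Mon {p, q}) i) =
      p ^ Nat.log p (Nat.nth (Mon {p, q}) n) * q ^ Nat.log q (Nat.nth (Mon {p, q}) n) := by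
  have hinf := mon_infinite h
  have hsm := Nat.nth_strictMono hinf
  have hpos : 0 < Nat.nth (Mon {p, q}) n := (Nat.nth_mem_of_infinite hinf n).1
  have hcop : Nat.Coprime p q := (Nat.coprime_primes h.hp h.hq).2 h.ne
  apply Nat.dvd_antisymm
  · apply Finset.lcm_dvd
    intro i hi
    rw [Finset.mem_range] at hi
    have h1 : Nat.nth (Mon {p, q}) i ≤ Nat.nth (Mon {p, q}) n := hsm.monotone (by omega)
    obtain ⟨a, b, hab⟩ := mon_iff h (Nat.nth_mem_of_infinite hinf i)
    rw [hab] at h1 ⊢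
    have hpa := pow_pos h.hp.pos a
    have hqb := pow_pos h.hq.pos b
    apply mul_dvd_mul
    · apply pow_dvd_pow
      apply (Nat.le_log_iff_pow_le h.hp.one_lt hpos.ne').2
      exact (Nat.le_mul_of_pos_right _ hqb).trans h1
    · apply pow_dvd_pow
      apply (Nat.le_log_iff_pow_le h.hq.one_lt hpos.ne').2
      exact (Nat.le_mul_of_pos_left _ hpa).trans h1
  · have key : ∀ m : ℕ, Mon {p, q} m → m ≤ Nat.nth (Mon {p, q}) n →
        m ∣ (Finset.range (n + 1)).lcm (fun i => Nat.nth (Mon {p, q}) i) := by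
      intro m hm hle
      have h1 : m ∈ Set.range (Nat.nth (Mon {p, q})) := by
        rw [Nat.range_nth_of_infinite hinf]
        exact hm
      obtain ⟨i, rfl⟩ := h1
      have h2 : i ≤ n := hsm.le_iff_le.1 hle
      exact Finset.dvd_lcm (f := fun i => Nat.nth (Mon {p, q}) i) (Finset.mem_range.2 (by omega))
    apply Nat.Coprime.mul_dvd_of_dvd_of_dvd
    · exact Nat.Coprime.pow _ _ hcop
    · apply key
      · have := mon_pow h (Nat.log p (Nat.nth (Mon {p, q}) n)) 0
        rwa [pow_zero, mul_one] at this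
      · exact Nat.pow_log_le_self p hpos.ne'
    · apply key
      · have := mon_pow h 0 (Nat.log q (Nat.nth (Mon {p, q}) n))
        rwa [pow_zero, one_mul] at this
      · exact Nat.pow_log_le_self q hpos.ne'

theorem log_mul {b : ℕ} (hb : 1 < b) {m : ℕ} (hm : m ≠ 0) : ∀ i : ℕ, Nat.log b (b ^ i * m) = i + Nat.log b m
  | 0 => by simp
  | i + 1 => by
    have h1 : b ^ (i + 1) * m = (b ^ i * m) * b := by ring
    have h2 : b ^ i * m ≠ 0 := mul_ne_zero (pow_ne_zero i (by omega)) hm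
    rw [h1, Nat.log_mul_base hb h2, log_mul hb hm i]
    ring

/-- the sum is a product -/
theorem sum_eq {p q : ℕ} (h : Pr p q) :
    ∑' n : ℕ, (1 : ℝ) / (((Finset.range (n + 1)).lcm (fun i => Nat.nth (Mon {p, q}) i) : ℕ) : ℝ) =
      (∑' i, f p q (el p q) i) * ∑' j, f q p (el q p) j := by
  have hinf := mon_infinite h
  obtain ⟨G, hG⟩ : ∃ G : ℕ → ℝ, G = fun m => (1 : ℝ) / ((p ^ Nat.log p m * q ^ Nat.log q m : ℕ) : ℝ) := ⟨_, rfl⟩
  have h1 : ∀ n : ℕ, (1 : ℝ) / (((Finset.range (n + 1)).lcm (fun i => Nat.nth (Mon {p, q}) i) : ℕ) : ℝ) =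
      G (Nat.nth (Mon {p, q}) n) := by
    intro n
    rw [hG, lcm_eq h n]
  have h2 : ∀ a : ℕ × ℕ, G (p ^ a.1 * q ^ a.2) = f p q (el p q) a.1 * f q p (el q p) a.2 := by
    rintro ⟨i, j⟩
    rw [hG]
    dsimp only
    have h3 : Nat.log p (p ^ i * q ^ j) = i + el q p j :=
      log_mul h.hp.one_lt (pow_ne_zero j h.hq.ne_zero) i
    have h4 : Nat.log q (p ^ i * q ^ j) = j + el p q i := by
      rw [mul_comm]
      exact log_mul h.hq.one_lt (pow_ne_zero i h.hp.ne_zero) j
    rw [h3, h4]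
    unfold f
    rw [one_div_mul_one_div]
    congr 1
    push_cast
    rw [pow_add, pow_add]
    ring
  have hs1 := summable_f (dat h)
  have hs2 := summable_f (dat h.symm)
  have h5 : Summable fun a : ℕ × ℕ => f p q (el p q) a.1 * f q p (el q p) a.2 :=
    hs1.mul_of_nonneg hs2 (fun i => (f_pos (dat h) i).le) (fun i => (f_pos (dat h.symm) i).le)
  rw [hs1.tsum_mul_tsum hs2 h5]
  calc ∑' n : ℕ, (1 : ℝ) / (((Finset.range (n + 1)).lcm (fun i => Nat.nth (Mon {p, q}) i) : ℕ) : ℝ)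
      = ∑' n : ℕ, G (Nat.nth (Mon {p, q}) n) := tsum_congr h1
    _ = ∑' x : Set.range (Nat.nth (Mon {p, q})), G x := (tsum_range G (Nat.nth_injective hinf)).symm
    _ = ∑' x : Set.range (fun a : ℕ × ℕ => p ^ a.1 * q ^ a.2), G x := by rw [range_nth h]
    _ = ∑' a : ℕ × ℕ, G (p ^ a.1 * q ^ a.2) := tsum_range G (mon_inj h)
    _ = _ := tsum_congr h2

/-- the series of the least common multiples is irrational for two primes -/
theorem main {p q : ℕ} (h : Pr p q) :
    Irrational (∑' n : ℕ, (1 : ℝ) / (((Finset.range (n + 1)).lcm (fun i => Nat.nth (Mon {p, q}) i) : ℕ) : ℝ)) := by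
  rw [sum_eq h]
  have hrel := rel h
  obtain ⟨F, hF⟩ : ∃ F : ℝ, F = ∑' i, f p q (el p q) i := ⟨_, rfl⟩
  obtain ⟨G, hG⟩ : ∃ G : ℝ, G = ∑' j, f q p (el q p) j := ⟨_, rfl⟩
  rw [← hF, ← hG] at hrel ⊢
  rintro ⟨r, hr⟩
  have hd : (r.den : ℝ) ≠ 0 := by exact_mod_cast r.den_pos.ne'
  have h1 : F * G * r.den = r.num := by
    rw [← hr]
    exact_mod_cast Rat.mul_den_eq_num r
  have h2 := lin (dat h) (((p : ℤ) - 1) * r.den) (-(((p : ℤ) + q - 1) * r.den)) (((q : ℤ) - 1) * r.num) (by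
    rw [← hF]
    push_cast
    rw [← h1]
    linear_combination (F * r.den) * hrel)
  have h3 := h2.1
  rcases mul_eq_zero.1 h3 with h4 | h4
  · have := h.hp.two_le
    omega
  · have := r.den_pos
    omega

end Pool.Agent.N514.LC
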